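import Pool.Agent.W758.AHC.Stm

/-!
Project AHC (owner helper758), part XB: the bound for `A`.
-/

set_option autoImplicit false

namespace Pool.Agent.W721.AHC

open Finset
open Pool.Agent.W758.AHC

theorem xb : S_XB := by
  intro hside hfin ι _ _ l A B I v c hlad hR3 hI
  obtain ⟨C, L, hL2, hcard, hinv, hN⟩ := hside ι ι
    { S := I, K := Iᶜ, v := fun _ => 0, lam := 0, c := c, w := v }
  have hT : (Sys.T (κ := ι) { S := I, K := Iᶜ, v := fun _ => 0, lam := 0, c := c, w := v })
      = ∅ := by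
    unfold Sys.T
    simp
  rw [hT, Finset.card_empty, zero_add] at hcard
  rw [hT, Finset.card_empty, show M0 0 = 1 from rfl, one_mul] at hinv
  have hCI : C ⊆ I := hinv.2.1
  have hN' : ∀ j ∈ Iᶜ, ((I.filter (fun i => c i j ≠ 0)) \ C).card ≤ 1 := fun j hj => hN j hj
  refine ⟨C, L, ?_, hL2, hCI, hcard, hN', ?_⟩
  · rintro rfl
    rw [List.sum_nil, Finset.card_eq_zero] at hcard
    obtain ⟨i, hi⟩ := hI
    obtain ⟨j, hj, -, h2⟩ := hR3 i hi
    have h3 := hN' j hj
    rw [hcard, Finset.sdiff_empty] at h3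
    omega
  · have hfin' := hfin ι ι { S := I, K := Iᶜ, v := fun _ => 0, lam := 0, c := c, w := v }
      C _ hinv hN
    have hdeg : ∀ i ∈ I \ C, ∃ k ∈ Iᶜ, c i k ≠ 0 ∧ ∃ i' ∈ C, c i' k ≠ 0 := by
      intro i hi
      obtain ⟨hiI, hiC⟩ := Finset.mem_sdiff.1 hi
      obtain ⟨j, hj, hc, h2⟩ := hR3 i hiI
      refine ⟨j, hj, hc, ?_⟩
      by_contra hno
      push Not at hno
      have h3 : I.filter (fun i' => c i' j ≠ 0) ⊆ (I.filter (fun i' => c i' j ≠ 0)) \ C := by
        intro i' hi'
        refine Finset.mem_sdiff.2 ⟨hi', fun hC => ?_⟩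
        exact (Finset.mem_filter.1 hi').2 (hno i' hC)
      have h4 := Finset.card_le_card h3
      have h5 := hN' j hj
      omega
    have hnd : ∀ (k : ι) (e : ℚ), (∃ i' ∈ C, c i' k ≠ 0) →
        ¬ Sys.Deg (κ := ι) { S := I, K := Iᶜ, v := fun _ => 0, lam := 0, c := c, w := v } C
          (fun j => c j k) e := by
      rintro k e ⟨i', hi', hc⟩ ⟨μ, h1, -⟩
      apply hc
      have := h1 i' hi'
      simpa using this
    have h6 := hfin' (fun i hi => by
      obtain ⟨k, hk, hc, hex⟩ := hdeg i hi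
      refine ⟨k, hk, ?_, fun _ => hnd k _ hex, fun _ => hnd k _ hex⟩
      exact Finset.mem_filter.2 ⟨(Finset.mem_sdiff.1 hi).1, hc⟩) (A.image (fun a => a ∩ I)) ?_
    · have hcd : (A.image (fun a => a ∩ I)).card = A.card := by
        refine Finset.card_image_of_injOn ?_
        intro a ha a' ha' haa
        have haa' : a ∩ I = a' ∩ I := haa
        ext x
        by_cases hx : x ∈ I
        · have h7 : x ∈ a ∩ I ↔ x ∈ a' ∩ I := by rw [haa']
          simpa [hx] using h7
        · have h8 := hlad.h1 a (Finset.mem_coe.1 ha) x (Finset.mem_compl.2 hx)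
          have h9 := hlad.h1 a' (Finset.mem_coe.1 ha') x (Finset.mem_compl.2 hx)
          rw [haa', ← h9] at h8
          unfold ind at h8
          by_cases h10 : x ∈ a <;> by_cases h11 : x ∈ a' <;> simp_all
      rw [hcd] at h6
      exact h6
    · intro x hx
      obtain ⟨a, ha, rfl⟩ := Finset.mem_image.1 hx
      refine ⟨Finset.inter_subset_right, by simp, ?_⟩
      intro k hk _
      have h7 := hlad.h1 a ha k hk
      have h8 : Sys.f (κ := ι) { S := I, K := Iᶜ, v := fun _ => 0, lam := 0, c := c, w := v } k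
          (a ∩ I) = ind a k := h7.symm
      rw [h8]
      unfold ind
      by_cases h9 : k ∈ a
      · right; rw [if_pos h9]
      · left; rw [if_neg h9]

end Pool.Agent.W721.AHC
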